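import Mathlib

set_option autoImplicit false

open Filter Topology
open scoped Pointwise

namespace Pool.Agent.Results.MP_dd6e79_al.NoUniversalOscillation

/-! ## Definitions used in the statement -/

/-- A semigroup is finitely presented if it is isomorphic to the quotient of the free semigroup on
finitely many generators by the congruence generated by finitely many relations. -/
def FinPres (S : Type) [Semigroup S] : Prop :=
  ∃ (k : ℕ) (R : Finset (FreeSemigroup (Fin k) × FreeSemigroup (Fin k))),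
    Nonempty (S ≃* (conGen (fun a b : FreeSemigroup (Fin k) => (a, b) ∈ R)).Quotient)

/-- The elements of `S` that are products of nonempty lists of at most `n` elements of `X` (the
product is computed in `S` with an identity element adjoined). -/
def ball {S : Type} [Semigroup S] (X : Set S) (n : ℕ) : Set S :=
  {s | ∃ l : List S, l ≠ [] ∧ l.length ≤ n ∧ (∀ x ∈ l, x ∈ X) ∧
    (l.map (WithOne.coe : S → WithOne S)).prod = (s : WithOne S)}

/-- The growth function of `S` with respect to the finite generating set `X`. -/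
noncomputable def growth {S : Type} [Semigroup S] (X : Finset S) (n : ℕ) : ℕ :=
  (ball (X : Set S) n).ncard

/-- The preorder on growth functions: `f n ≤ C * g (C * n)` for all `n`. -/
def Dom (f g : ℕ → ℕ) : Prop := ∃ C : ℕ, 1 ≤ C ∧ ∀ n, f n ≤ C * g (C * n)

/-- Equivalence of growth functions. -/
def Equi (f g : ℕ → ℕ) : Prop := Dom f g ∧ Dom g f

/-- Subexponential functions. -/
def SubExp (f : ℕ → ℕ) : Prop :=
  ∀ c : ℝ, 1 < c → Tendsto (fun n => (f n : ℝ) / c ^ n) atTop (𝓝 0)

/-! ## Growth functions of finitely generated semigroups -/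

section Sub

variable {S : Type} [Semigroup S] (X : Finset S)

/-- Products of at most `n` elements in the monoid. -/
def TT (n : ℕ) : Set (WithOne S) :=
  {p | ∃ l : List S, l.length ≤ n ∧ (∀ x ∈ l, x ∈ X) ∧
    (l.map (WithOne.coe : S → WithOne S)).prod = p}

theorem TT_finite (n : ℕ) : (TT X n).Finite := by
  classical
  have h1 : {l : List X | l.length ≤ n}.Finite := List.finite_length_le X n
  refine (h1.image (fun l : List X => (l.map (fun x : X => (WithOne.coe x.1 : WithOne S))).prod)).subset ?_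
  rintro p ⟨l, h2, h3, rfl⟩
  refine ⟨l.attach.map (fun x => ⟨x.1, h3 x.1 x.2⟩), ?_, ?_⟩
  · simpa using h2
  · simp only [List.map_map]
    congr 1
    conv_rhs => rw [← List.attach_map_subtype_val l]
    rw [List.map_map]
    rfl

theorem TT_mul (m n : ℕ) : TT X (m + n) ⊆ TT X m * TT X n := by
  rintro p ⟨l, h2, h3, rfl⟩
  refine ⟨_, ⟨l.take m, ?_, ?_, rfl⟩, _, ⟨l.drop m, ?_, ?_, rfl⟩, ?_⟩
  · rw [List.length_take]; omega
  · intro x hx
    exact h3 x (List.mem_of_mem_take hx)
  · rw [List.length_drop]; omega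
  · intro x hx
    exact h3 x (List.mem_of_mem_drop hx)
  · show _ * _ = _
    rw [← List.prod_append, ← List.map_append, List.take_append_drop]

theorem TT_eq (n : ℕ) : TT X n = insert 1 ((WithOne.coe : S → WithOne S) '' ball (X : Set S) n) := by
  ext p
  constructor
  · rintro ⟨l, h2, h3, rfl⟩
    by_cases hl : l = []
    · left
      rw [hl]; rfl
    · right
      -- the product of a nonempty list is in S
      have : ∃ s : S, (l.map (WithOne.coe : S → WithOne S)).prod = (s : WithOne S) := by
        clear h2 h3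
        induction l with
        | nil => exact absurd rfl hl
        | cons a t ih =>
          by_cases ht : t = []
          · subst ht
            exact ⟨a, by simp⟩
          · obtain ⟨s, hs⟩ := ih ht
            refine ⟨a * s, ?_⟩
            rw [List.map_cons, List.prod_cons, hs, WithOne.coe_mul]
      obtain ⟨s, hs⟩ := this
      exact ⟨s, ⟨l, hl, h2, h3, hs⟩, hs.symm⟩
  · rintro (rfl | ⟨s, ⟨l, -, h2, h3, h4⟩, rfl⟩)
    · exact ⟨[], by simp, by simp, by simp⟩
    · exact ⟨l, h2, h3, h4⟩

theorem ball_finite (n : ℕ) : (ball (X : Set S) n).Finite := by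
  have h1 := TT_finite X n
  rw [TT_eq] at h1
  exact Set.Finite.of_finite_image (h1.subset (Set.subset_insert _ _))
    (fun a _ b _ h => WithOne.coe_injective h)

theorem TT_ncard (n : ℕ) : (TT X n).ncard = growth X n + 1 := by
  rw [TT_eq, Set.ncard_insert_of_notMem (by
    rintro ⟨s, -, hs⟩
    exact WithOne.coe_ne_one hs) ((ball_finite X n).image _),
    Set.ncard_image_of_injective _ WithOne.coe_injective]
  rfl

theorem growth_submul (m n : ℕ) :
    growth X (m + n) + 1 ≤ (growth X m + 1) * (growth X n + 1) := by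
  rw [← TT_ncard, ← TT_ncard, ← TT_ncard]
  exact (Set.ncard_le_ncard (TT_mul X m n) ((TT_finite X m).mul (TT_finite X n))).trans
    (by
      classical
      rw [Set.ncard_eq_toFinset_card _ ((TT_finite X m).mul (TT_finite X n)),
        Set.ncard_eq_toFinset_card _ (TT_finite X m), Set.ncard_eq_toFinset_card _ (TT_finite X n)]
      have : ((TT_finite X m).mul (TT_finite X n)).toFinset =
          (TT_finite X m).toFinset * (TT_finite X n).toFinset := by
        ext x; simp [Finset.mem_mul, Set.mem_mul]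
      rw [this]
      exact Finset.card_mul_le)

theorem ball_mono {m n : ℕ} (h : m ≤ n) : ball (X : Set S) m ⊆ ball (X : Set S) n := by
  rintro s ⟨l, h1, h2, h3, h4⟩
  exact ⟨l, h1, h2.trans h, h3, h4⟩

theorem growth_mono {m n : ℕ} (h : m ≤ n) : growth X m ≤ growth X n :=
  Set.ncard_le_ncard (ball_mono X h) (ball_finite X n)

theorem growth_pow (m q r : ℕ) :
    growth X (q * m + r) + 1 ≤ (growth X m + 1) ^ q * (growth X r + 1) := by
  induction q with
  | zero => simp
  | succ q ih =>
    have h1 := growth_submul X m (q * m + r)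
    have e : m + (q * m + r) = (q + 1) * m + r := by ring
    rw [e] at h1
    calc growth X ((q + 1) * m + r) + 1 ≤ (growth X m + 1) * (growth X (q * m + r) + 1) := h1
      _ ≤ (growth X m + 1) * ((growth X m + 1) ^ q * (growth X r + 1)) :=
        Nat.mul_le_mul_left _ ih
      _ = _ := by ring

/-- Exponential or subexponential growth. -/
theorem dichotomy :
    (∃ c : ℝ, 1 < c ∧ ∀ n, c ^ n ≤ (growth X n : ℝ) + 1) ∨ SubExp (growth X) := by
  by_cases h : ∃ c : ℝ, 1 < c ∧ ∀ n, c ^ n ≤ (growth X n : ℝ) + 1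
  · exact Or.inl h
  right
  push Not at h
  intro c hc
  -- choose an intermediate base
  set b : ℝ := (1 + c) / 2 with hb
  have hb1 : 1 < b := by rw [hb]; linarith
  have hbc : b < c := by rw [hb]; linarith
  obtain ⟨m, hm⟩ := h b hb1
  have hm0 : 0 < m := by
    rcases Nat.eq_zero_or_pos m with rfl | hm0
    · exfalso
      simp only [pow_zero] at hm
      have : (0 : ℝ) ≤ (growth X 0 : ℝ) := Nat.cast_nonneg _
      linarith
    · exact hm0
  have key : ∀ n : ℕ, (growth X n : ℝ) ≤ ((growth X m : ℝ) + 1) * b ^ n := by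
    intro n
    have h1 := growth_pow X m (n / m) (n % m)
    rw [Nat.div_add_mod' n m] at h1
    have h2 : growth X (n % m) ≤ growth X m := growth_mono X (Nat.mod_lt n hm0).le
    have h3 : ((growth X n : ℝ)) + 1 ≤ ((growth X m : ℝ) + 1) ^ (n / m) * ((growth X m : ℝ) + 1) := by
      have : growth X n + 1 ≤ (growth X m + 1) ^ (n / m) * (growth X m + 1) :=
        h1.trans (Nat.mul_le_mul_left _ (by omega))
      exact_mod_cast this
    have h4 : ((growth X m : ℝ) + 1) ^ (n / m) ≤ b ^ n := by
      calc ((growth X m : ℝ) + 1) ^ (n / m) ≤ (b ^ m) ^ (n / m) :=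
            pow_le_pow_left₀ (by positivity) hm.le _
        _ = b ^ (m * (n / m)) := by rw [pow_mul]
        _ ≤ b ^ n := pow_le_pow_right₀ hb1.le (Nat.mul_div_le n m)
    have h5 : (0 : ℝ) ≤ (growth X m : ℝ) + 1 := by positivity
    nlinarith [mul_le_mul_of_nonneg_right h4 h5]
  have hlim : Tendsto (fun n : ℕ => ((growth X m : ℝ) + 1) * (b / c) ^ n) atTop (𝓝 0) := by
    have h1 := tendsto_pow_atTop_nhds_zero_of_lt_one (r := b / c) (by positivity)
      ((div_lt_one (by linarith)).2 hbc)
    simpa using h1.const_mul ((growth X m : ℝ) + 1)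
  refine squeeze_zero (fun n => by positivity) (fun n => ?_) hlim
  rw [div_pow, ← mul_div_assoc]
  have : 0 < c ^ n := by positivity
  gcongr
  exact key n

end Sub

/-! ## Countably many growth functions -/

theorem growth_equiv {S Q : Type} [Semigroup S] [Semigroup Q] (e : S ≃* Q) (X : Finset S) :
    ∃ Y : Finset Q, growth Y = growth X := by
  classical
  refine ⟨X.map e.toEquiv.toEmbedding, ?_⟩
  funext n
  have key : ball ((X.map e.toEquiv.toEmbedding : Finset Q) : Set Q) n = e '' ball (X : Set S) n := by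
    ext q
    constructor
    · rintro ⟨l, h1, h2, h3, h4⟩
      refine ⟨e.symm q, ⟨l.map e.symm, by simpa using h1, by simpa using h2, ?_, ?_⟩, by simp⟩
      · intro x hx
        rw [List.mem_map] at hx
        obtain ⟨y, hy, rfl⟩ := hx
        have := h3 y hy
        rw [Finset.mem_coe, Finset.mem_map] at this
        obtain ⟨z, hz, rfl⟩ := this
        simpa using hz
      · have h5 := congrArg (WithOne.mapMulHom e.symm.toMulHom) h4
        rw [map_list_prod, WithOne.mapMulHom_coe, List.map_map] at h5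
        rw [List.map_map]
        exact h5
    · rintro ⟨s, ⟨l, h1, h2, h3, h4⟩, rfl⟩
      refine ⟨l.map e, by simpa using h1, by simpa using h2, ?_, ?_⟩
      · intro x hx
        rw [List.mem_map] at hx
        obtain ⟨y, hy, rfl⟩ := hx
        rw [Finset.mem_coe, Finset.mem_map]
        exact ⟨y, h3 y hy, rfl⟩
      · have h5 := congrArg (WithOne.mapMulHom e.toMulHom) h4
        rw [map_list_prod, WithOne.mapMulHom_coe, List.map_map] at h5
        rw [List.map_map]
        exact h5
  unfold growth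
  rw [key, Set.ncard_image_of_injective _ e.injective]

theorem free_countable (k : ℕ) : Countable (FreeSemigroup (Fin k)) := by
  have : Function.Injective (fun w : FreeSemigroup (Fin k) => (w.head, w.tail)) := by
    rintro ⟨a, s⟩ ⟨b, t⟩ h
    simp only [Prod.mk.injEq] at h
    rw [h.1, h.2]
  exact this.countable

/-- The set of the growth functions of finitely presented semigroups is countable. -/
theorem countable_growth :
    {f : ℕ → ℕ | ∃ (S : Type) (_ : Semigroup S) (X : Finset S), FinPres S ∧ f = growth X}.Countable := by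
  classical
  have hc := free_countable
  let ι : Type := Σ k : ℕ, Σ R : Finset (FreeSemigroup (Fin k) × FreeSemigroup (Fin k)),
    Finset (conGen (fun a b : FreeSemigroup (Fin k) => (a, b) ∈ R)).Quotient
  have hq : ∀ (k : ℕ) (c : Con (FreeSemigroup (Fin k))), Countable c.Quotient := fun k c =>
    Quotient.mk''_surjective.countable
  have hι : Countable ι := inferInstance
  refine (Set.countable_range (fun i : ι => growth i.2.2)).mono ?_
  rintro f ⟨S, _, X, ⟨k, R, ⟨e⟩⟩, rfl⟩
  obtain ⟨Y, hY⟩ := growth_equiv e X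
  exact ⟨⟨k, R, Y⟩, hY⟩

/-! ## Diagonalisation -/

theorem SubExp.add {f g : ℕ → ℕ} (hf : SubExp f) (hg : SubExp g) : SubExp (fun n => f n + g n) := by
  intro c hc
  have := (hf c hc).add (hg c hc)
  rw [add_zero] at this
  refine this.congr (fun n => ?_)
  push_cast
  ring

theorem SubExp.sum {f : ℕ → ℕ → ℕ} (hf : ∀ k, SubExp (f k)) (m : ℕ) :
    SubExp (fun n => ∑ k ∈ Finset.range m, f k n) := by
  induction m with
  | zero => intro c hc; simp
  | succ m ih =>
    simp only [Finset.sum_range_succ]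
    exact ih.add (hf m)

theorem subExp_id : SubExp (fun n => n) := by
  intro c hc
  have := tendsto_pow_const_div_const_pow_of_one_lt 1 hc
  simpa using this

theorem diag (g : ℕ → ℕ → ℕ) (hg : ∀ k, SubExp (g k)) (hm : ∀ k, Monotone (g k)) :
    ∃ f : ℕ → ℕ, StrictMono f ∧ SubExp f ∧ ∀ k, ∀ᶠ n in atTop, g k n ≤ f n := by
  classical
  have hN : ∀ k : ℕ, ∃ N : ℕ, ∀ n, N ≤ n →
      (g k n : ℝ) ≤ (1 + 1 / ((k : ℝ) + 1)) ^ n * (1 / 2) ^ (k + 1) := by
    intro k
    have h1 : (1 : ℝ) < 1 + 1 / ((k : ℝ) + 1) := by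
      have : (0 : ℝ) < 1 / ((k : ℝ) + 1) := by positivity
      linarith
    have h2 := (hg k _ h1).eventually (gt_mem_nhds (show (0 : ℝ) < (1 / 2) ^ (k + 1) by positivity))
    obtain ⟨N, hN⟩ := eventually_atTop.1 h2
    refine ⟨N, fun n hn => ?_⟩
    have h3 := hN n hn
    rw [div_lt_iff₀ (by positivity)] at h3
    rw [mul_comm]
    exact h3.le
  choose N hN using hN
  refine ⟨fun n => n + ∑ k ∈ Finset.range n, if N k ≤ n then g k n else 0, ?_, ?_, ?_⟩
  · refine strictMono_nat_of_lt_succ (fun n => ?_)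
    have h1 : ∑ k ∈ Finset.range n, (if N k ≤ n then g k n else 0) ≤
        ∑ k ∈ Finset.range (n + 1), (if N k ≤ n + 1 then g k (n + 1) else 0) := by
      refine (Finset.sum_le_sum (fun k _ => ?_)).trans
        (Finset.sum_le_sum_of_subset (Finset.range_mono (Nat.le_succ n)))
      by_cases h : N k ≤ n
      · rw [if_pos h, if_pos (h.trans (Nat.le_succ n))]
        exact hm k (Nat.le_succ n)
      · rw [if_neg h]
        exact Nat.zero_le _
    show n + _ < (n + 1) + _
    omega
  · -- subexponential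
    intro c hc
    obtain ⟨m, hmc⟩ := exists_nat_one_div_lt (sub_pos.2 hc)
    have hb : 1 + 1 / ((m : ℝ) + 1) < c := by linarith
    set b : ℝ := 1 + 1 / ((m : ℝ) + 1) with hbdef
    have hb1 : 1 < b := by
      rw [hbdef]
      have : (0 : ℝ) < 1 / ((m : ℝ) + 1) := by positivity
      linarith
    have hA : SubExp (fun n => n + ∑ k ∈ Finset.range m, g k n) :=
      subExp_id.add (SubExp.sum hg m)
    have hlim : Tendsto (fun n : ℕ => ((n + ∑ k ∈ Finset.range m, g k n : ℕ) : ℝ) / c ^ n +
        (b / c) ^ n) atTop (𝓝 0) := by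
      have h1 := tendsto_pow_atTop_nhds_zero_of_lt_one (r := b / c) (by positivity)
        ((div_lt_one (by linarith)).2 hb)
      simpa using (hA c hc).add h1
    refine squeeze_zero (fun n => by positivity) (fun n => ?_) hlim
    have hcn : 0 < c ^ n := by positivity
    rw [div_pow, ← add_div]
    have key : (((n + ∑ k ∈ Finset.range n, if N k ≤ n then g k n else 0 : ℕ) : ℝ)) ≤
        ((n + ∑ k ∈ Finset.range m, g k n : ℕ) : ℝ) + b ^ n := by
      push_cast
      have h1 : (∑ k ∈ Finset.range n, if N k ≤ n then (g k n : ℝ) else 0) ≤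
          ∑ k ∈ Finset.range n, ((if k < m then (g k n : ℝ) else 0) + b ^ n * (1 / 2) ^ (k + 1)) := by
        refine Finset.sum_le_sum (fun k _ => ?_)
        by_cases hk : k < m
        · rw [if_pos hk]
          have : (0 : ℝ) ≤ b ^ n * (1 / 2) ^ (k + 1) := by positivity
          split_ifs
          · linarith
          · have : (0 : ℝ) ≤ g k n := Nat.cast_nonneg _
            positivity
        · rw [if_neg hk, zero_add]
          split_ifs with hNk
          · refine (hN k n hNk).trans ?_
            gcongr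
            rw [hbdef]
            gcongr
            exact_mod_cast not_lt.1 hk
          · positivity
      have h2 : ∑ k ∈ Finset.range n, (if k < m then (g k n : ℝ) else 0) ≤
          ∑ k ∈ Finset.range m, (g k n : ℝ) := by
        rw [← Finset.sum_filter]
        refine Finset.sum_le_sum_of_subset_of_nonneg ?_ (fun _ _ _ => Nat.cast_nonneg _)
        intro k hk
        rw [Finset.mem_filter] at hk
        exact Finset.mem_range.2 hk.2
      have h3 : ∑ k ∈ Finset.range n, b ^ n * (1 / 2 : ℝ) ^ (k + 1) ≤ b ^ n := by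
        rw [← Finset.mul_sum]
        have h4 : ∑ k ∈ Finset.range n, (1 / 2 : ℝ) ^ (k + 1) ≤ 1 := by
          have h5 : ∀ n : ℕ, ∑ k ∈ Finset.range n, (1 / 2 : ℝ) ^ (k + 1) = 1 - (1 / 2) ^ n := by
            intro n
            induction n with
            | zero => simp
            | succ n ih => rw [Finset.sum_range_succ, ih]; ring
          rw [h5]
          have : (0 : ℝ) ≤ (1 / 2) ^ n := by positivity
          linarith
        calc b ^ n * ∑ k ∈ Finset.range n, (1 / 2 : ℝ) ^ (k + 1) ≤ b ^ n * 1 := by gcongr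
          _ = b ^ n := mul_one _
      rw [Finset.sum_add_distrib] at h1
      have h6 : (∑ k ∈ Finset.range n, if N k ≤ n then (g k n : ℝ) else 0) =
        ((∑ k ∈ Finset.range n, if N k ≤ n then (g k n : ℝ) else 0)) := rfl
      linarith
    gcongr
  · intro k
    filter_upwards [eventually_ge_atTop (N k), eventually_gt_atTop k] with n h1 h2
    have h3 : (if N k ≤ n then g k n else 0) ≤ ∑ k ∈ Finset.range n, if N k ≤ n then g k n else 0 :=
      Finset.single_le_sum (f := fun k => if N k ≤ n then g k n else 0)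
        (fun _ _ => Nat.zero_le _) (Finset.mem_range.2 h2)
    rw [if_pos h1] at h3
    omega

theorem strong : ∃ f₂ : ℕ → ℕ, StrictMono f₂ ∧ SubExp f₂ ∧
    ∀ f₁ : ℕ → ℕ, SubExp f₁ →
      ∀ (S : Type) [Semigroup S] (X : Finset S), FinPres S →
        (∀ᶠ n in atTop, f₁ n ≤ growth X n) ∨ (∀ᶠ n in atTop, growth X n ≤ f₂ n) := by
  classical
  set F : Set (ℕ → ℕ) := {f : ℕ → ℕ | ∃ (S : Type) (_ : Semigroup S) (X : Finset S),
    FinPres S ∧ f = growth X} with hF
  set A : Set (ℕ → ℕ) := insert (fun _ => 0) {f ∈ F | SubExp f} with hA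
  have hAc : A.Countable := (countable_growth.mono (Set.sep_subset _ _)).insert _
  have hAne : A.Nonempty := ⟨_, Set.mem_insert _ _⟩
  obtain ⟨g, hg⟩ := hAc.exists_eq_range hAne
  have hgs : ∀ k, SubExp (g k) ∧ Monotone (g k) := by
    intro k
    have h1 : g k ∈ A := by rw [hg]; exact ⟨k, rfl⟩
    rcases h1 with h1 | ⟨⟨S, _, X, -, h2⟩, h3⟩
    · rw [h1]
      refine ⟨?_, monotone_const⟩
      intro c hc
      simp
    · refine ⟨h3, ?_⟩
      rw [h2]
      intro a b hab
      exact growth_mono X hab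
  obtain ⟨f, hf1, hf2, hf3⟩ := diag g (fun k => (hgs k).1) (fun k => (hgs k).2)
  refine ⟨f, hf1, hf2, ?_⟩
  intro f₁ hf₁ S _ X hS
  rcases dichotomy X with ⟨c, hc, h1⟩ | h1
  · left
    have h2 := (hf₁ c hc).eventually (gt_mem_nhds (show (0 : ℝ) < 1 / 2 by norm_num))
    have h3 := (tendsto_pow_atTop_atTop_of_one_lt hc).eventually (eventually_ge_atTop (2 : ℝ))
    filter_upwards [h2, h3] with n h2 h3
    rw [div_lt_iff₀ (by positivity)] at h2
    have h4 := h1 n
    have h5 : (f₁ n : ℝ) ≤ (growth X n : ℝ) := by linarith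
    exact_mod_cast h5
  · right
    have h2 : growth X ∈ A := Or.inr ⟨⟨S, _, X, hS, rfl⟩, h1⟩
    rw [hg] at h2
    obtain ⟨k, hk⟩ := h2
    have := hf3 k
    rw [hk] at this
    exact this

theorem subExp_pow (d : ℕ) : SubExp (fun n => n ^ d) := by
  intro c hc
  have := tendsto_pow_const_div_const_pow_of_one_lt d hc
  simpa using this

theorem not_dom_of_subExp {f : ℕ → ℕ} (hf : SubExp f) : ¬ Dom (fun n => 2 ^ n) f := by
  rintro ⟨C, hC, h⟩
  have hC0 : (0 : ℝ) < C := by exact_mod_cast hC
  -- base c with c ^ C < 2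
  obtain ⟨c, hc1, hc2⟩ : ∃ c : ℝ, 1 < c ∧ c ^ C ≤ 2 := by
    refine ⟨(2 : ℝ) ^ ((1 : ℝ) / C), ?_, ?_⟩
    · exact Real.one_lt_rpow (by norm_num) (by positivity)
    · rw [← Real.rpow_natCast, ← Real.rpow_mul (by norm_num)]
      rw [one_div, inv_mul_cancel₀ hC0.ne', Real.rpow_one]
  have h1 := hf c hc1
  have h2 : Tendsto (fun n : ℕ => C * n) atTop atTop :=
    tendsto_id.const_mul_atTop' (by omega)
  have h3 := (h1.comp h2).eventually (gt_mem_nhds (show (0 : ℝ) < 1 / C by positivity))
  obtain ⟨n, hn⟩ := h3.exists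
  simp only [Function.comp] at hn
  rw [div_lt_div_iff₀ (by positivity) hC0] at hn
  have h4 : ((2 : ℝ) ^ n) ≤ C * f (C * n) := by exact_mod_cast h n
  have h5 : c ^ (C * n) ≤ 2 ^ n := by
    rw [pow_mul]
    exact pow_le_pow_left₀ (by positivity) hc2 n
  linarith

/-- **Answer to Q1: no.**  There are increasing functions `f₁, f₂` with `n² ≼ f₁`, `f₂ ≼ 2ⁿ`,
`f₁ ≁ n²`, `f₂ ≁ 2ⁿ`, such that for every finitely presented semigroup and each of its
finite generating sets the growth function is `≥ f₁` for all large `n` or `≤ f₂` for all large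
`n`. -/
theorem result :
    ∃ f₁ f₂ : ℕ → ℕ, StrictMono f₁ ∧ StrictMono f₂ ∧
      Dom (fun n => n ^ 2) f₁ ∧ Dom f₂ (fun n => 2 ^ n) ∧
      ¬ Equi f₁ (fun n => n ^ 2) ∧ ¬ Equi f₂ (fun n => 2 ^ n) ∧
      ∀ (S : Type) [Semigroup S] (X : Finset S), FinPres S →
        Subsemigroup.closure (X : Set S) = ⊤ →
        (∀ᶠ n in atTop, f₁ n ≤ growth X n) ∨ (∀ᶠ n in atTop, growth X n ≤ f₂ n) := by
  obtain ⟨f₂, h1, h2, h3⟩ := strong
  refine ⟨fun n => n ^ 3, f₂, ?_, h1, ?_, ?_, ?_, ?_, ?_⟩
  · intro a b hab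
    exact Nat.pow_lt_pow_left hab (by norm_num)
  · refine ⟨1, le_rfl, fun n => ?_⟩
    simp only [one_mul]
    rcases Nat.eq_zero_or_pos n with rfl | hn
    · simp
    · exact Nat.pow_le_pow_right hn (by norm_num)
  · -- f₂ ≼ 2^n
    have h4 := (h2 2 (by norm_num)).eventually (gt_mem_nhds (show (0 : ℝ) < 1 by norm_num))
    obtain ⟨N, hN⟩ := eventually_atTop.1 h4
    refine ⟨f₂ N + 1, by omega, fun n => ?_⟩
    rcases le_total N n with hn | hn
    · have h5 := hN n hn
      rw [div_lt_one (by positivity)] at h5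
      have h6 : f₂ n ≤ 2 ^ n := by exact_mod_cast h5.le
      calc f₂ n ≤ 2 ^ n := h6
        _ ≤ 2 ^ ((f₂ N + 1) * n) := Nat.pow_le_pow_right (by norm_num) (Nat.le_mul_of_pos_left n (by omega))
        _ ≤ (f₂ N + 1) * 2 ^ ((f₂ N + 1) * n) := Nat.le_mul_of_pos_left _ (by omega)
    · calc f₂ n ≤ f₂ N := h1.monotone hn
        _ ≤ (f₂ N + 1) * 1 := by omega
        _ ≤ (f₂ N + 1) * 2 ^ ((f₂ N + 1) * n) := Nat.mul_le_mul_left _ Nat.one_le_two_pow
  · rintro ⟨⟨C, hC, h⟩, -⟩
    have h4 := h (C ^ 3 + 1)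
    simp only at h4
    have h5 : C * (C * (C ^ 3 + 1)) ^ 2 = C ^ 3 * (C ^ 3 + 1) ^ 2 := by ring
    rw [h5] at h4
    have h6 : (C ^ 3 + 1) ^ 3 = (C ^ 3 + 1) * (C ^ 3 + 1) ^ 2 := by ring
    rw [h6] at h4
    have h7 : 0 < (C ^ 3 + 1) ^ 2 := by positivity
    have := Nat.le_of_mul_le_mul_right h4 h7
    omega
  · rintro ⟨-, h⟩
    exact not_dom_of_subExp h2 h
  · intro S _ X hS _
    exact h3 _ (subExp_pow 3) S X hS

end Pool.Agent.Results.MP_dd6e79_al.NoUniversalOscillation
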